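import Pool.Agent.Helper31_CYD.SBase

/-! # CYD: module S5 (helper31) -/

set_option autoImplicit false

open Polynomial IsLocalRing

namespace Pool.Agent.CYD.H31

theorem dvd_aux' {r : ℤ} (m : ℤ) (h : (r - 1) ∣ m * (r - 2)) : (r - 1) ∣ m := by
  have h1 : m * (r - 2) = m * (r - 1) - m := by ring
  rw [h1] at h
  have h2 : (r - 1) ∣ m * (r - 1) := Dvd.intro_left m rfl
  have h3 := dvd_sub h2 h
  have h4 : m * (r - 1) - (m * (r - 1) - m) = m := by ring
  rwa [h4] at h3

theorem prim_coe' {K : Type} [Field K] (A : ValuationSubring K) {c : A} {m : ℕ}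
    (hc : IsPrimitiveRoot c m) : IsPrimitiveRoot (c : K) m :=
  hc.map_of_injective (f := A.subtype) Subtype.coe_injective

/-- `3 x ≠ 5` for the fifth roots of unity, unless `p` is 2, 11 or 131 -/
theorem three_ne {F : Type} [Field F] (p : ℕ) (hp : p.Prime) [CharP F p] (h2 : p ≠ 2)
    (h11 : p ≠ 11) (h131 : p ≠ 131) (x : F) (hx : x ^ 5 = 1) :
    (((5 : ℕ) : F) - 2) * x ≠ ((5 : ℕ) : F) := by
  intro h
  have h1 : ((((5 : ℕ) : F) - 2) * x) ^ 5 = ((5 : ℕ) : F) ^ 5 := by rw [h]
  rw [mul_pow, hx, mul_one] at h1
  have h3 : ((2882 : ℕ) : F) = 0 := by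
    push_cast at h1 ⊢
    have h4 : (5 : F) ^ 5 - (5 - 2) ^ 5 = 2882 := by norm_num
    rw [← h4, h1, sub_self]
  have h4 := (CharP.cast_eq_zero_iff F p 2882).1 h3
  have h5 : p ∣ 2 * (11 * 131) := by norm_num; exact h4
  rcases (hp.dvd_mul).1 h5 with h6 | h6
  · exact h2 ((Nat.prime_dvd_prime_iff_eq hp Nat.prime_two).1 h6)
  · rcases (hp.dvd_mul).1 h6 with h7 | h7
    · exact h11 ((Nat.prime_dvd_prime_iff_eq hp (by norm_num)).1 h7)
    · exact h131 ((Nat.prime_dvd_prime_iff_eq hp (by norm_num)).1 h7)

theorem s5 (hSqr : SqrStmt) (hLin : LinStmt) (hVal : ValStmt) (hClm : ClmStmt)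
    (hSum : SumStmt) : S5Stmt := by
  intro n p g h F hp5 hp11 K _ _ _
  classical
  have hB : ∀ (A : ValuationSubring K) (c w : A), Loc p 5 A c w → ex A g 5 c = 0 := by
    intro A c w L
    obtain ⟨k, hk, hgen⟩ := exists_gen p F.hp
    have hchar := charP_res A p F.hp L.hm
    obtain ⟨s, l, hs, hrel⟩ := hSqr n p 5 g h F K (c : K) (w : K) (prim_coe' A L.hc)
      (prim_coe' A L.hw) k hk
    have h1 := hrel A c w rfl rfl L
    have ha : IsPrimitiveRoot (residue A c) 5 := res_prim F.hp F.hq F.hpq A L
    have ha1 := ha.pow_eq_one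
    have h11 := h1 1 (by norm_num)
    rw [pow_one, one_mul] at h11
    by_cases h131 : p = 131
    · -- the exceptional prime
      have h2 : (k : ResidueField A) ^ (20 * ex A g 5 c) = 1 := by
        have h3 : 20 * ex A g 5 c = (2 * ex A g 5 c) * 10 := by ring
        have h4 : ((s : ResidueField A) * residue A c ^ l) ^ 10 = 1 := by
          have h5 : ((s : ResidueField A) * residue A c ^ l) ^ 10 =
              ((s : ResidueField A) ^ 2) ^ 5 * ((residue A c) ^ 5) ^ (2 * l) := by ring
          rw [h5, neg_one_sq_or hs, ha1, one_pow, one_pow, one_mul]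
        rw [h3, zpow_mul, h11]
        exact_mod_cast h4
      rw [hgen] at h2
      have hmu : ∀ b : ResidueField A, IsPrimitiveRoot b 5 →
          rootMultiplicity b (red (ResidueField A) g) ≤ 3 ∨
          (126 ≤ rootMultiplicity b (red (ResidueField A) g) ∧
            rootMultiplicity b (red (ResidueField A) g) ≤ 129) := by
        intro b hb
        have hFg : Fg (p * 5) g h := by
          have := F.toFg
          rwa [F.hn] at this
        have h3 := hClm p 5 g h F.hp (by norm_num) hp5 hFg (ResidueField A) b hb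
        have h4 := (hSum n p 5 g h F.toFg F.hp F.hn (ResidueField A) b hb).2
        have h5 : Nat.totient 5 = 4 := by decide
        rw [h5] at h3
        omega
      have hm1 := hmu (residue A c) ha
      have hm2 := hmu (residue A (c ^ 4)) (by
        rw [map_pow]
        exact ha.pow_of_coprime 4 (by norm_num))
      have he : ex A g 5 c = (rootMultiplicity (residue A (c ^ 4)) (red (ResidueField A) g) : ℤ) -
          rootMultiplicity (residue A c) (red (ResidueField A) g) := rfl
      obtain ⟨t, ht⟩ := h2
      rw [h131] at ht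
      push_cast at ht
      omega
    · -- the general case
      have hTval : ∀ j, ¬ 5 ∣ j → (ex A g 5 (c ^ j) = 0 ∨ ex A g 5 (c ^ j) = p - 2 ∨
          ex A g 5 (c ^ j) = -((p : ℤ) - 2)) := by
        intro j hj
        refine (hVal n p 5 g h F K A (c ^ j) w (loc_pow F.hq A L hj)).2 ?_ ?_
        · apply three_ne p F.hp F.hp2 hp11 h131
          rw [map_pow, ← pow_mul, mul_comm, pow_mul, ha1, one_pow]
        · apply three_ne p F.hp F.hp2 hp11 h131
          rw [map_pow, ← pow_mul, ← pow_mul, show j * ((5 - 1) * 5) = 5 * (j * 4) by ring,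
            pow_mul, ha1, one_pow]
      set S : Finset (ResidueField A) := {1, (k : ResidueField A) ^ (2 * ((p : ℤ) - 2)),
        (k : ResidueField A) ^ (2 * (-((p : ℤ) - 2)))} with hS
      have hScard : S.card ≤ 3 := Finset.card_le_three
      set T : Finset ℕ := {1, 2, 3, 4} with hT
      have hTcard : T.card = 4 := by decide
      have hl : 5 ∣ l := by
        by_contra hl
        have hal : IsPrimitiveRoot (residue A c ^ l) 5 :=
          ha.pow_of_coprime l ((F.hq.coprime_iff_not_dvd.2 hl).symm)
        have h2 : T.card ≤ S.card := by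
          apply Finset.card_le_card_of_injOn (fun j => (s : ResidueField A) * residue A c ^ (j * l))
          · intro j hj
            have hj5 : ¬ 5 ∣ j := by
              simp only [hT, Finset.coe_insert, Finset.coe_singleton, Set.mem_insert_iff,
                Set.mem_singleton_iff] at hj
              omega
            have hj' := hTval j hj5
            simp only
            rw [← h1 j hj5]
            rcases hj' with h0 | h0 | h0 <;> rw [h0] <;> simp [hS]
          · intro i hi j hj hij
            simp only at hij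
            have hs0 : (s : ResidueField A) ≠ 0 := by
              rcases hs with rfl | rfl <;> simp
            have h3 := mul_left_cancel₀ hs0 hij
            simp only [hT, Finset.coe_insert, Finset.coe_singleton, Set.mem_insert_iff,
                Set.mem_singleton_iff] at hi hj
            apply hal.pow_inj (by omega) (by omega)
            rw [← pow_mul, ← pow_mul, mul_comm l i, mul_comm l j]
            exact h3
        omega
      obtain ⟨l', rfl⟩ := hl
      rw [pow_mul, ha1, one_pow, mul_one] at h11
      have h4 : (k : ResidueField A) ^ (4 * ex A g 5 c) = 1 := by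
        have h3 : 4 * ex A g 5 c = (2 * ex A g 5 c) * 2 := by ring
        rw [h3, zpow_mul, h11]
        have := neg_one_sq_or hs (F := ResidueField A)
        exact_mod_cast this
      rw [hgen] at h4
      have h5 : (p : ℤ) - 1 ∣ 4 → False := by
        intro hd
        have := Int.le_of_dvd (by norm_num) hd
        omega
      have h6 := hTval 1 (by norm_num)
      rw [pow_one] at h6
      rcases h6 with h0 | h0 | h0
      · exact h0
      · rw [h0] at h4
        exact (h5 (dvd_aux' 4 h4)).elim
      · rw [h0] at h4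
        have h7 : (p : ℤ) - 1 ∣ 4 * ((p : ℤ) - 2) := by
          have := (dvd_neg (a := (p : ℤ) - 1)).2 h4
          have h8 : -(4 * -((p : ℤ) - 2)) = 4 * ((p : ℤ) - 2) := by ring
          rwa [h8] at this
        exact (h5 (dvd_aux' 4 h7)).elim
  refine ⟨hB, ?_⟩
  intro A w c L
  have hcyc : IsCyclotomicExtension {5 * p} ℚ K := by
    rw [mul_comm]
    infer_instance
  have hchar := charP_res A 5 F.hq L.hm
  have hco : Nat.Coprime p (5 - 1) := by
    have h1 : Nat.Coprime p 2 := (Nat.coprime_primes F.hp Nat.prime_two).2 F.hp2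
    have h2 := Nat.Coprime.mul_right h1 h1
    exact h2
  obtain ⟨k, hk, hgen⟩ := exists_gen 5 F.hq
  obtain ⟨s, l, hs, hrel⟩ := hLin n 5 p g h F.symm K hB (w : K) (c : K) (prim_coe' A L.hc)
      (prim_coe' A L.hw) k hk
  have h1 := hrel A w c rfl rfl L 1 (fun hd => F.hp.one_lt.ne' (Nat.dvd_one.1 hd))
  rw [pow_one, one_mul] at h1
  have hw1 : (residue A w) ^ p = 1 := by rw [← map_pow, L.hc.pow_eq_one, map_one]
  have h2 := small_rel 5 p F.hq F.hq2 hco k hk _ s hs l (residue A w) hw1 h1
  have h3 : (k : ResidueField A) ^ (2 * ex A g p w) = 1 := by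
    have h4 : 2 * ex A g p w = ex A g p w * 2 := by ring
    rw [h4, zpow_mul, h2]
    have := neg_one_sq_or hs (F := ResidueField A)
    exact_mod_cast this
  rw [hgen] at h3
  push_cast at h3
  rcases val_small hVal F.symm hco A L with h0 | h0 | h0
  · exact h0
  · rw [h0] at h3
    norm_num at h3
  · rw [h0] at h3
    norm_num at h3

end Pool.Agent.CYD.H31
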