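import Pool.Agent.Helper31_CYD.SBase

/-! # CYD: module S7 (helper31) -/

set_option autoImplicit false

open Polynomial IsLocalRing

namespace Pool.Agent.CYD.H31

theorem dvd_aux {r : ℤ} (hr : 1 < r) (m : ℤ) (h : (r - 1) ∣ m * (r - 2)) : (r - 1) ∣ m := by
  have h1 : m * (r - 2) = m * (r - 1) - m := by ring
  rw [h1] at h
  have h2 : (r - 1) ∣ m * (r - 1) := Dvd.intro_left m rfl
  have h3 := dvd_sub h2 h
  have h4 : m * (r - 1) - (m * (r - 1) - m) = m := by ring
  rwa [h4] at h3

theorem prim_coe {K : Type} [Field K] (A : ValuationSubring K) {c : A} {m : ℕ}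
    (hc : IsPrimitiveRoot c m) : IsPrimitiveRoot (c : K) m :=
  hc.map_of_injective (f := A.subtype) Subtype.coe_injective

theorem s7 (hSqr : SqrStmt) (hLin : LinStmt) (hVal : ValStmt) : S7Stmt := by
  intro n p q g h F hq7 hqp K _ _ _
  have hA : ∀ (A : ValuationSubring K) (w c : A), Loc q p A w c → ex A g p w = 0 := by
    intro A w c L
    have hcyc : IsCyclotomicExtension {q * p} ℚ K := by
      rw [mul_comm]
      infer_instance
    obtain ⟨k, hk, hgen⟩ := exists_gen q F.hq
    have hchar := charP_res A q F.hq L.hm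
    have hco : Nat.Coprime p (q - 1) := by
      rw [F.hp.coprime_iff_not_dvd]
      intro hd
      have := Nat.le_of_dvd (by omega) hd
      omega
    obtain ⟨s, l, hs, hrel⟩ := hSqr n q p g h F.symm K (w : K) (c : K) (prim_coe A L.hc)
      (prim_coe A L.hw) k hk
    have h1 := hrel A w c rfl rfl L 1 (fun hd => F.hp.one_lt.ne' (Nat.dvd_one.1 hd))
    rw [pow_one, one_mul] at h1
    have hw1 : (residue A w) ^ p = 1 := by rw [← map_pow, L.hc.pow_eq_one, map_one]
    have h2 := small_rel q p F.hq F.hq2 hco k hk _ s hs l (residue A w) hw1 h1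
    have h3 : (k : ResidueField A) ^ (4 * ex A g p w) = 1 := by
      have h4 : 4 * ex A g p w = 2 * ex A g p w * 2 := by ring
      rw [h4, zpow_mul, h2]
      have := neg_one_sq_or hs (F := ResidueField A)
      exact_mod_cast this
    rw [hgen] at h3
    have hq1 : (1 : ℤ) < q := by exact_mod_cast F.hq.one_lt
    have h5 : (q : ℤ) - 1 ∣ 4 → False := by
      intro hd
      have := Int.le_of_dvd (by norm_num) hd
      omega
    rcases val_small hVal F.symm hco A L with h0 | h0 | h0
    · exact h0
    · rw [h0] at h3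
      exact (h5 (dvd_aux hq1 4 h3)).elim
    · rw [h0] at h3
      have h6 : (q : ℤ) - 1 ∣ 4 * ((q : ℤ) - 2) := by
        have := (dvd_neg (a := (q : ℤ) - 1)).2 h3
        have h7 : -(4 * -((q : ℤ) - 2)) = 4 * ((q : ℤ) - 2) := by ring
        rwa [h7] at this
      exact (h5 (dvd_aux hq1 4 h6)).elim
  refine ⟨?_, hA⟩
  intro A c w L
  classical
  obtain ⟨k, hk, hgen⟩ := exists_gen p F.hp
  have hchar := charP_res A p F.hp L.hm
  obtain ⟨s, l, hs, hrel⟩ := hLin n p q g h F K hA (c : K) (w : K) (prim_coe A L.hc)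
      (prim_coe A L.hw) k hk
  have h1 := hrel A c w rfl rfl L
  have ha : IsPrimitiveRoot (residue A c) q := res_prim F.hp F.hq F.hpq A L
  have ha1 := ha.pow_eq_one
  generalize hadef : residue A c = a at *
  have hpq : ¬ p ∣ q := fun hd => F.hpq ((Nat.prime_dvd_prime_iff_eq F.hp F.hq).1 hd)
  have hq0 : (q : ResidueField A) ≠ 0 := fun h0 =>
    hpq ((CharP.cast_eq_zero_iff (ResidueField A) p q).1 h0)
  have hk0 : (k : ResidueField A) ≠ 0 := fun h0 =>
    hk ((CharP.cast_eq_zero_iff (ResidueField A) p k).1 h0)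
  have ha0 : a ≠ 0 := ha.ne_zero F.hq.ne_zero
  set P1 : ℕ → Prop := fun j => ((q : ResidueField A) - 2) * a ^ j = q with hP1
  set P2 : ℕ → Prop := fun j => ((q : ResidueField A) - 2) * (a ^ j) ^ (q - 1) = q with hP2
  have hinj1 : ∀ i j, P1 i → P1 j → a ^ i = a ^ j := by
    intro i j hi hj
    have h2 : ((q : ResidueField A) - 2) ≠ 0 := by
      intro h0
      have hi' : ((q : ResidueField A) - 2) * a ^ i = q := hi
      rw [h0, zero_mul] at hi'
      exact hq0 hi'.symm
    exact mul_left_cancel₀ h2 (hi.trans hj.symm)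
  have hinj2 : ∀ i j, P2 i → P2 j → a ^ i = a ^ j := by
    intro i j hi hj
    have h2 : ((q : ResidueField A) - 2) ≠ 0 := by
      intro h0
      have hi' : ((q : ResidueField A) - 2) * (a ^ i) ^ (q - 1) = q := hi
      rw [h0, zero_mul] at hi'
      exact hq0 hi'.symm
    have h3 : (a ^ i) ^ (q - 1) = (a ^ j) ^ (q - 1) := mul_left_cancel₀ h2 (hi.trans hj.symm)
    have h4 : ∀ i, (a ^ i) ^ (q - 1) * a ^ i = 1 := by
      intro i
      rw [← pow_succ, Nat.sub_add_cancel F.hq.one_le, ← pow_mul, mul_comm, pow_mul, ha1, one_pow]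
    have h5 := h4 i
    rw [h3, ← h4 j] at h5
    exact mul_left_cancel₀ (pow_ne_zero _ (pow_ne_zero _ ha0)) h5
  set B := (Finset.range q).filter (fun j => j = 0 ∨ P1 j ∨ P2 j) with hB
  set T := (Finset.range q).filter (fun j => ¬ (j = 0 ∨ P1 j ∨ P2 j)) with hT
  have hBcard : B.card ≤ 3 := by
    have h2 : B ⊆ (Finset.range q).filter (fun j => j = 0) ∪
        ((Finset.range q).filter P1 ∪ (Finset.range q).filter P2) := by
      intro j hj
      simp only [hB, Finset.mem_filter] at hj
      simp only [Finset.mem_union, Finset.mem_filter]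
      tauto
    have h3 : ((Finset.range q).filter (fun j => j = 0)).card ≤ 1 := by
      rw [Finset.card_le_one]
      intro i hi j hj
      simp only [Finset.mem_filter] at hi hj
      rw [hi.2, hj.2]
    have h4 : ((Finset.range q).filter P1).card ≤ 1 := by
      rw [Finset.card_le_one]
      intro i hi j hj
      simp only [Finset.mem_filter, Finset.mem_range] at hi hj
      exact ha.pow_inj hi.1 hj.1 (hinj1 i j hi.2 hj.2)
    have h5 : ((Finset.range q).filter P2).card ≤ 1 := by
      rw [Finset.card_le_one]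
      intro i hi j hj
      simp only [Finset.mem_filter, Finset.mem_range] at hi hj
      exact ha.pow_inj hi.1 hj.1 (hinj2 i j hi.2 hj.2)
    calc B.card ≤ _ := Finset.card_le_card h2
      _ ≤ _ := Finset.card_union_le _ _
      _ ≤ 1 + (1 + 1) := Nat.add_le_add h3 ((Finset.card_union_le _ _).trans (Nat.add_le_add h4 h5))
  have hTcard : 4 ≤ T.card := by
    have h2 : B.card + T.card = q := by
      rw [hB, hT, Finset.card_filter_add_card_filter_not, Finset.card_range]
    omega
  have hTval : ∀ j ∈ T, ¬ q ∣ j ∧ (ex A g q (c ^ j) = 0 ∨ ex A g q (c ^ j) = p - 2 ∨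
      ex A g q (c ^ j) = -((p : ℤ) - 2)) := by
    intro j hj
    simp only [hT, Finset.mem_filter, Finset.mem_range, not_or] at hj
    have hqj : ¬ q ∣ j := by
      intro hd
      have := Nat.le_of_dvd (by omega) hd
      omega
    refine ⟨hqj, (hVal n p q g h F K A (c ^ j) w (loc_pow F.hq A L hqj)).2 ?_ ?_⟩
    · rw [map_pow, hadef]
      exact hj.2.2.1
    · rw [map_pow, hadef]
      exact hj.2.2.2
  set S : Finset (ResidueField A) := {1, (k : ResidueField A) ^ ((p : ℤ) - 2),
    (k : ResidueField A) ^ (-((p : ℤ) - 2))} with hS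
  have hScard : S.card ≤ 3 := Finset.card_le_three
  have hl : q ∣ l := by
    by_contra hl
    have hal : IsPrimitiveRoot (a ^ l) q :=
      ha.pow_of_coprime l ((F.hq.coprime_iff_not_dvd.2 hl).symm)
    have h2 : T.card ≤ S.card := by
      apply Finset.card_le_card_of_injOn (fun j => (s : ResidueField A) * a ^ (j * l))
      · intro j hj
        have hj' := hTval j hj
        simp only
        rw [← h1 j hj'.1]
        rcases hj'.2 with h0 | h0 | h0 <;> rw [h0] <;> simp [hS]
      · intro i hi j hj hij
        simp only at hij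
        have hs0 : (s : ResidueField A) ≠ 0 := by
          rcases hs with rfl | rfl <;> simp
        have h3 := mul_left_cancel₀ hs0 hij
        have hi' : i < q := by
          have := hi
          simp only [hT, Finset.coe_filter, Finset.mem_range, Set.mem_ofPred_eq] at this
          exact this.1
        have hj' : j < q := by
          have := hj
          simp only [hT, Finset.coe_filter, Finset.mem_range, Set.mem_ofPred_eq] at this
          exact this.1
        apply hal.pow_inj hi' hj'
        rw [← pow_mul, ← pow_mul, mul_comm l i, mul_comm l j]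
        exact h3
    omega
  obtain ⟨l', rfl⟩ := hl
  have h2 : ∀ j, ¬ q ∣ j → (k : ResidueField A) ^ (ex A g q (c ^ j)) = s := by
    intro j hj
    have h3 : j * (q * l') = q * (j * l') := by ring
    rw [h1 j hj, h3, pow_mul, ha1, one_pow, mul_one]
  have hp1 : (1 : ℤ) < p := by exact_mod_cast F.hp.one_lt
  have hs1 : (s : ResidueField A) = 1 := by
    have hne : T.Nonempty := by
      rw [← Finset.card_pos]
      omega
    obtain ⟨j, hj⟩ := hne
    have hj' := hTval j hj
    have h3 := h2 j hj'.1
    have h5 : (p : ℤ) - 1 ∣ 2 → False := by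
      intro hd
      have := Int.le_of_dvd (by norm_num) hd
      omega
    rcases hj'.2 with h0 | h0 | h0
    · rw [h0, zpow_zero] at h3
      exact h3.symm
    · exfalso
      have h4 : (k : ResidueField A) ^ (2 * ((p : ℤ) - 2)) = 1 := by
        rw [mul_comm, zpow_mul, ← h0, h3]
        have := neg_one_sq_or hs (F := ResidueField A)
        exact_mod_cast this
      rw [hgen] at h4
      exact h5 (dvd_aux hp1 2 h4)
    · exfalso
      have h4 : (k : ResidueField A) ^ (2 * ((p : ℤ) - 2)) = 1 := by
        have h6 : 2 * ((p : ℤ) - 2) = -(-((p : ℤ) - 2) * 2) := by ring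
        rw [h6, zpow_neg, zpow_mul, ← h0, h3]
        have := neg_one_sq_or hs (F := ResidueField A)
        have h7 : (s : ResidueField A) ^ (2 : ℤ) = 1 := by exact_mod_cast this
        rw [h7, inv_one]
      rw [hgen] at h4
      exact h5 (dvd_aux hp1 2 h4)
  have h3 := h2 1 (fun hd => F.hq.one_lt.ne' (Nat.dvd_one.1 hd))
  rw [pow_one, hs1, hgen] at h3
  have h4 := (hVal n p q g h F K A c w L).1
  exact Int.eq_zero_of_abs_lt_dvd h3 (by omega)

end Pool.Agent.CYD.H31
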