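import Pool.Agent.Helper85_CYD.StG
import Pool.Agent.Helper85_CYD.St1

/-! # CYD: common lemmas for S5 and S7 (helper31) -/

set_option autoImplicit false

open Polynomial IsLocalRing

namespace Pool.Agent.CYD.H31

theorem charP_res {K : Type} [Field K] (A : ValuationSubring K) (r : ℕ) (hr : r.Prime)
    (hm : (r : A) ∈ maximalIdeal A) : CharP (ResidueField A) r := by
  have h0 : ((r : ℕ) : ResidueField A) = 0 := by
    have := (residue_eq_zero_iff (R := A) (r : A)).mpr hm
    simpa using this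
  exact (CharP.charP_iff_prime_eq_zero hr).mpr h0

/-- a primitive root modulo `r` -/
theorem exists_gen (r : ℕ) (hr : r.Prime) : ∃ k : ℕ, ¬ r ∣ k ∧
    ∀ (F : Type) [Field F] [CharP F r] (e : ℤ), (k : F) ^ e = 1 ↔ ((r : ℤ) - 1) ∣ e := by
  have : Fact r.Prime := ⟨hr⟩
  obtain ⟨g, hg⟩ := IsCyclic.exists_generator (α := (ZMod r)ˣ)
  have hord : orderOf g = r - 1 := by
    rw [orderOf_eq_card_of_forall_mem_zpowers hg, Nat.card_eq_fintype_card, ZMod.card_units]
  refine ⟨(g : ZMod r).val, ?_, ?_⟩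
  · intro hd
    have h1 : ((g : ZMod r).val : ZMod r) = 0 := (ZMod.natCast_eq_zero_iff _ _).2 hd
    rw [ZMod.natCast_zmod_val] at h1
    exact g.ne_zero h1
  · intro F _ _ e
    have hinj : Function.Injective (ZMod.castHom (dvd_refl r) F) := RingHom.injective _
    have h1 : (((g : ZMod r).val : ℕ) : F) = ZMod.castHom (dvd_refl r) F (g : ZMod r) := by
      conv_rhs => rw [← ZMod.natCast_zmod_val (g : ZMod r)]
      rw [map_natCast]
    have h2 : (((r - 1 : ℕ) : ℤ)) = (r : ℤ) - 1 := by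
      have := hr.one_le
      push_cast [Nat.cast_sub this]
      ring
    rw [h1, ← map_zpow₀, ← h2, ← hord, orderOf_dvd_iff_zpow_eq_one]
    constructor
    · intro h3
      have h4 : ((g : ZMod r)) ^ e = 1 := hinj (by rw [h3, map_one])
      apply Units.ext
      rw [Units.val_zpow_eq_zpow_val, h4, Units.val_one]
    · intro h3
      have h4 : ((g ^ e : (ZMod r)ˣ) : ZMod r) = 1 := by rw [h3, Units.val_one]
      rw [Units.val_zpow_eq_zpow_val] at h4
      rw [h4, map_one]

theorem pow_sub_one_natCast {F : Type} [Field F] (r : ℕ) (hr : r.Prime) [CharP F r] (k : ℕ)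
    (hk : ¬ r ∣ k) : (k : F) ^ (r - 1) = 1 := by
  have : Fact r.Prime := ⟨hr⟩
  have h1 : (k : F) ^ r = k := by
    have := map_natCast (frobenius F r) k
    rwa [frobenius_def] at this
  have h2 : (k : F) ≠ 0 := by
    intro h0
    exact hk ((CharP.cast_eq_zero_iff F r k).1 h0)
  have h3 : (k : F) ^ (r - 1) * k = 1 * k := by
    rw [← pow_succ, Nat.sub_add_cancel hr.one_le, h1, one_mul]
  exact mul_right_cancel₀ h2 h3

/-- an element killed by two coprime exponents is one -/
theorem eq_one_of_coprime {F : Type} [Field F] {x : F} {m n : ℕ} (hmn : m.Coprime n)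
    (h1 : x ^ m = 1) (h2 : x ^ n = 1) : x = 1 := by
  have h3 := orderOf_dvd_of_pow_eq_one h1
  have h4 := orderOf_dvd_of_pow_eq_one h2
  have h5 : orderOf x ∣ 1 := by
    rw [← hmn]
    exact Nat.dvd_gcd h3 h4
  rw [Nat.dvd_one, orderOf_eq_one_iff] at h5
  exact h5

theorem neg_one_sq_or {s : ℤ} (hs : s = 1 ∨ s = -1) {F : Type} [Field F] : (s : F) ^ 2 = 1 := by
  rcases hs with rfl | rfl <;> simp

theorem sign_pow {s : ℤ} (hs : s = 1 ∨ s = -1) {F : Type} [Field F] {r : ℕ} (hr : Odd r) :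
    (s : F) ^ (r - 1) = 1 := by
  obtain ⟨u, rfl⟩ := hr
  rw [Nat.add_sub_cancel, pow_mul, neg_one_sq_or hs, one_pow]

/-- in characteristic `r`: `(t - 2) x ≠ t` if `x ^ t = 1` and `t` is prime to `r - 1` -/
theorem ne_of_coprime {F : Type} [Field F] (r t : ℕ) (hr : r.Prime) [CharP F r] (hr2 : r ≠ 2)
    (hrt : ¬ r ∣ t) (hco : Nat.Coprime t (r - 1)) (x : F) (hx : x ^ t = 1) :
    ((t : F) - 2) * x ≠ t := by
  intro h
  have : Fact r.Prime := ⟨hr⟩
  have ht0 : (t : F) ≠ 0 := by
    intro h0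
    exact hrt ((CharP.cast_eq_zero_iff F r t).1 h0)
  have h2 : ((t : F) - 2) ≠ 0 := by
    intro h0
    rw [h0, zero_mul] at h
    exact ht0 h.symm
  have hx0 : x ≠ 0 := by
    rintro rfl
    rw [mul_zero] at h
    exact ht0 h.symm
  have h3 : ((t : F) - 2) ^ r = (t : F) - 2 := by
    have h4 : frobenius F r ((t : F) - 2) = (t : F) - 2 := by
      rw [map_sub, map_natCast, map_ofNat]
    rwa [frobenius_def] at h4
  have h4 : (t : F) ^ r = t := by
    have := map_natCast (frobenius F r) t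
    rwa [frobenius_def] at this
  have h5 : x ^ r = x := by
    have h6 : (((t : F) - 2) * x) ^ r = t ^ r := by rw [h]
    rw [mul_pow, h3, h4] at h6
    exact mul_left_cancel₀ h2 (h6.trans h.symm)
  have h6 : x ^ (r - 1) = 1 := by
    have h7 : x ^ (r - 1) * x = 1 * x := by
      rw [← pow_succ, Nat.sub_add_cancel hr.one_le, h5, one_mul]
    exact mul_right_cancel₀ hx0 h7
  have h7 := eq_one_of_coprime hco hx h6
  rw [h7, mul_one] at h
  have h8 : (2 : F) = 0 := by
    have : (t : F) - 2 - t = 0 := by rw [h, sub_self]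
    linear_combination -this
  have h9 : ((2 : ℕ) : F) = 0 := by push_cast; exact h8
  have h10 := (CharP.cast_eq_zero_iff F r 2).1 h9
  exact hr2 ((Nat.prime_dvd_prime_iff_eq hr Nat.prime_two).1 h10)

/-- the residue of a primitive root of unity of order `q` is primitive -/
theorem res_prim {K : Type} [Field K] {p q : ℕ} (hp : p.Prime) (hq : q.Prime) (hpq : p ≠ q)
    (A : ValuationSubring K) {c w : A} (L : Loc p q A c w) : IsPrimitiveRoot (residue A c) q := by
  have := charP_res A p hp L.hm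
  have h1 : (residue A c) ^ q = 1 := by rw [← map_pow, L.hc.pow_eq_one, map_one]
  have h2 : residue A c ≠ 1 := by
    intro h2
    have h3 := L.hc.geom_sum_eq_zero hq.one_lt
    have h4 : ((q : ℕ) : ResidueField A) = 0 := by
      have := congrArg (residue A) h3
      simp only [map_sum, map_pow, map_zero, h2, one_pow, Finset.sum_const, Finset.card_range,
        nsmul_eq_mul, mul_one] at this
      exact this
    have h5 := (CharP.cast_eq_zero_iff (ResidueField A) p q).1 h4
    exact hpq ((Nat.prime_dvd_prime_iff_eq hp hq).1 h5)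
  have h3 : orderOf (residue A c) = q := by
    have : Fact q.Prime := ⟨hq⟩
    exact orderOf_eq_prime h1 h2
  rw [← h3]
  exact IsPrimitiveRoot.orderOf _

/-- the exponent on the small side -/
theorem val_small (hVal : ValStmt) {n r t : ℕ} {g h : ℤ[X]} (F : Fac n r t g h)
    (hco : Nat.Coprime t (r - 1)) {K : Type} [Field K] [CharZero K] (A : ValuationSubring K)
    {c w : A} (L : Loc r t A c w) :
    ex A g t c = 0 ∨ ex A g t c = r - 2 ∨ ex A g t c = -((r : ℤ) - 2) := by
  have := charP_res A r F.hp L.hm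
  have hrt : ¬ r ∣ t := fun hd => F.hpq ((Nat.prime_dvd_prime_iff_eq F.hp F.hq).1 hd)
  have h1 : (residue A c) ^ t = 1 := by rw [← map_pow, L.hc.pow_eq_one, map_one]
  refine (hVal n r t g h F K A c w L).2 ?_ ?_
  · exact ne_of_coprime r t F.hp F.hp2 hrt hco _ h1
  · refine ne_of_coprime r t F.hp F.hp2 hrt hco _ ?_
    rw [← pow_mul, mul_comm, pow_mul, h1, one_pow]

theorem loc_pow {K : Type} [Field K] {p q : ℕ} (hq : q.Prime) (A : ValuationSubring K) {c w : A}
    (L : Loc p q A c w) {j : ℕ} (hj : ¬ q ∣ j) : Loc p q A (c ^ j) w :=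
  ⟨L.hm, L.hc.pow_of_coprime j ((hq.coprime_iff_not_dvd.2 hj).symm), L.hw⟩

/-- the relation on the small side: the root of unity is a sign -/
theorem small_rel {F : Type} [Field F] (r t : ℕ) (hr : r.Prime) [CharP F r] (hr2 : r ≠ 2)
    (hco : Nat.Coprime t (r - 1)) (k : ℕ) (hk : ¬ r ∣ k) (e : ℤ) (s : ℤ) (hs : s = 1 ∨ s = -1)
    (l : ℕ) (a : F) (ha : a ^ t = 1) (h : (k : F) ^ e = (s : F) * a ^ l) :
    (k : F) ^ e = s := by
  have hodd : Odd r := hr.odd_of_ne_two hr2
  have h1 : ((k : F) ^ e) ^ (r - 1) = 1 := by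
    rw [← zpow_natCast, zpow_comm, zpow_natCast, pow_sub_one_natCast r hr k hk, one_zpow]
  have h2 : (a ^ l) ^ (r - 1) = 1 := by
    rw [h, mul_pow, sign_pow hs hodd, one_mul] at h1
    exact h1
  have h3 : (a ^ l) ^ t = 1 := by rw [← pow_mul, mul_comm, pow_mul, ha, one_pow]
  have h4 := eq_one_of_coprime hco h3 h2
  rw [h, h4, mul_one]

end Pool.Agent.CYD.H31
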